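import Pool.Agent.helper91.HZ.Spec

set_option autoImplicit false
set_option linter.unusedVariables false

namespace Pool.Agent.HZ

theorem SZ : SZ_stmt := by
  intro J 𝒰 κ _ p k _ π hUP N f hf
  classical
  obtain ⟨m, hm⟩ := MvPolynomial.ne_zero_iff.1 hf
  rw [MvPolynomial.coeff_map] at hm
  have h1 : ∀ᶠ j in (𝒰 : Filter J), ¬ ((MvPolynomial.coeff m f) j = 0) := by
    rw [Ultrafilter.eventually_not]
    intro h
    exact hm ((hUP.zero _).2 h)
  refine ⟨f.totalDegree, ?_⟩
  filter_upwards [h1] with j hj
  have := hUP.char j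
  set g := MvPolynomial.map (Pi.evalRingHom κ j) f with hg
  have hg0 : g ≠ 0 := by
    intro h
    apply hj
    have := congrArg (MvPolynomial.coeff m) h
    rw [hg, MvPolynomial.coeff_map, MvPolynomial.coeff_zero] at this
    exact this
  set S : Finset (κ j) := (Finset.range (p j)).image (fun n : ℕ => (n : κ j)) with hS
  have hinj : Set.InjOn (fun n : ℕ => (n : κ j)) (Finset.range (p j)) := by
    have := CharP.natCast_injOn_Iio (κ j) (p j)
    intro a ha b hb hab
    exact this (by simpa using ha) (by simpa using hb) hab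
  have hScard : S.card = p j := by
    rw [hS, Finset.card_image_of_injOn hinj, Finset.card_range]
  have hsz := MvPolynomial.schwartz_zippel_totalDegree hg0 S
  refine ⟨(box N (p j)).filter (fun t => vl f j t = 0), ?_,
    fun t ht h => Finset.mem_filter.2 ⟨ht, h⟩⟩
  have hcard : ((box N (p j)).filter (fun t => vl f j t = 0)).card ≤
      (Finset.filter (fun x => MvPolynomial.eval x g = 0)
        (Fintype.piFinset fun _ : Fin N => S)).card := by
    refine Finset.card_le_card_of_injOn (fun t i => ((t i : ℕ) : κ j)) ?_ ?_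
    · intro t ht
      have ht' := Finset.mem_filter.1 (Finset.mem_coe.1 ht)
      rw [Finset.mem_coe, Finset.mem_filter, Fintype.mem_piFinset]
      refine ⟨fun i => ?_, ht'.2⟩
      rw [hS, Finset.mem_image]
      exact ⟨t i, Fintype.mem_piFinset.1 ht'.1 i, rfl⟩
    · intro t ht u hu htu
      have ht' := Finset.mem_filter.1 (Finset.mem_coe.1 ht)
      have hu' := Finset.mem_filter.1 (Finset.mem_coe.1 hu)
      funext i
      exact hinj (Finset.mem_coe.2 (Fintype.mem_piFinset.1 ht'.1 i))
        (Finset.mem_coe.2 (Fintype.mem_piFinset.1 hu'.1 i)) (congrFun htu i)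
  rw [hScard] at hsz
  have hp : (0 : ℚ≥0) < (p j : ℚ≥0) := by exact_mod_cast (hUP.prime j).pos
  rw [div_le_div_iff₀ (by positivity) hp] at hsz
  have h2 : (Finset.filter (fun x => MvPolynomial.eval x g = 0)
        (Fintype.piFinset fun _ : Fin N => S)).card * p j ≤ g.totalDegree * p j ^ N := by
    exact_mod_cast hsz
  have h3 : g.totalDegree ≤ f.totalDegree := Finset.sup_mono (MvPolynomial.support_map_subset _ _)
  exact (Nat.mul_le_mul_right _ hcard).trans (h2.trans (Nat.mul_le_mul_right _ h3))

end Pool.Agent.HZ
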